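import Pool.Agent.R479.DB.Ae2
import Pool.Agent.H785R2.ABC.A12
import Pool.Agent.H785R2.ABC.A345

/-!
# The upper bound for the approximations `p / q` with `rad p * rad q` small
-/

set_option autoImplicit false

namespace Pool.Agent.J6H28.ABCX

open Finset Filter Topology MeasureTheory
open Pool.Agent.H785R2.ABC (rad stmtA2 stmtA3_of stmtA4_of StmtA3 StmtA4)
open Pool.Agent.R479.DB

theorem rad_pos (n : ℕ) : 0 < rad n :=
  Finset.prod_pos fun _ hp => (Nat.prime_of_mem_primeFactors hp).pos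

/-- the number of the pairs with `rad p * rad q ≤ B q ^ mu` -/
theorem s2_count (B mu : ℝ) (hB : 0 < B) (hmu : 0 < mu) (ε : ℝ) (hε : 0 < ε) :
    ∃ C : ℝ, ∀ X : ℝ, 1 ≤ X →
      {t | t ∈ S2 B mu ∧ (t.2 : ℝ) ≤ X}.Finite ∧
      (({t | t ∈ S2 B mu ∧ (t.2 : ℝ) ≤ X}.ncard : ℕ) : ℝ) ≤ C * X ^ (mu + ε) := by
  obtain ⟨D3, hD3, h3⟩ := (stmtA3_of stmtA2) (ε / 2) (by positivity)
  obtain ⟨D4, hD4, h4⟩ := (stmtA4_of (stmtA3_of stmtA2)) (ε / 2) (by positivity)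
  refine ⟨D4 * B * D3, fun X hX => ?_⟩
  have hX0 : 0 < X := by linarith
  set N : ℕ := ⌊X⌋₊ with hN
  have hN1 : 1 ≤ N := Nat.one_le_floor_iff _ |>.mpr hX
  have hNX : (N : ℝ) ≤ X := Nat.floor_le hX0.le
  -- the finite set of the pairs
  set T : Finset (ℕ × ℕ) := (Icc 1 N).biUnion fun q =>
    ((Icc 1 N).filter fun p => (rad p : ℝ) ≤ B * X ^ mu / rad q).image fun p => (p, q) with hT
  have hsub : {t | t ∈ S2 B mu ∧ (t.2 : ℝ) ≤ X} ⊆ (T : Set (ℕ × ℕ)) := by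
    rintro ⟨p, q⟩ ⟨⟨h1, h2, -, h5⟩, h6⟩
    simp only at h1 h2 h5 h6
    have hq0 : 0 < q := by omega
    have hqN : q ≤ N := Nat.le_floor h6
    rw [hT, Finset.mem_coe, Finset.mem_biUnion]
    refine ⟨q, Finset.mem_Icc.2 ⟨hq0, hqN⟩, ?_⟩
    rw [Finset.mem_image]
    refine ⟨p, ?_, rfl⟩
    rw [Finset.mem_filter, Finset.mem_Icc]
    refine ⟨⟨h1, by omega⟩, ?_⟩
    have hr : (0 : ℝ) < rad q := by exact_mod_cast rad_pos q
    rw [le_div_iff₀ hr]
    push_cast at h5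
    refine h5.trans ?_
    gcongr
  refine ⟨(Finset.finite_toSet T).subset hsub, ?_⟩
  have hcard : (({t | t ∈ S2 B mu ∧ (t.2 : ℝ) ≤ X}.ncard : ℕ) : ℝ) ≤ (T.card : ℝ) := by
    have := Set.ncard_le_ncard hsub (Finset.finite_toSet T)
    rw [Set.ncard_coe_finset] at this
    exact_mod_cast this
  refine hcard.trans ?_
  have hT1 : (T.card : ℝ) ≤ ∑ q ∈ Icc 1 N,
      (((Icc 1 N).filter fun p => (rad p : ℝ) ≤ B * X ^ mu / rad q).card : ℝ) := by
    have h5 : T.card ≤ ∑ q ∈ Icc 1 N,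
        ((Icc 1 N).filter fun p => (rad p : ℝ) ≤ B * X ^ mu / rad q).card := by
      refine Finset.card_biUnion_le.trans (Finset.sum_le_sum fun q _ => Finset.card_image_le)
    exact_mod_cast h5
  refine hT1.trans ?_
  have hNe : (N : ℝ) ^ (ε / 2) ≤ X ^ (ε / 2) :=
    Real.rpow_le_rpow (Nat.cast_nonneg _) hNX (by positivity)
  have hsum := h3 N hN1 1 le_rfl
  have hall : (Icc 1 N).filter (fun d => 1 ∣ rad d) = Icc 1 N :=
    Finset.filter_true_of_mem fun d _ => one_dvd _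
  rw [hall, Nat.cast_one, div_one] at hsum
  calc ∑ q ∈ Icc 1 N, (((Icc 1 N).filter fun p => (rad p : ℝ) ≤ B * X ^ mu / rad q).card : ℝ)
      ≤ ∑ q ∈ Icc 1 N, D4 * (N : ℝ) ^ (ε / 2) * (B * X ^ mu / rad q) :=
        Finset.sum_le_sum fun q _ => h4 N hN1 _ (by positivity)
    _ = D4 * (N : ℝ) ^ (ε / 2) * (B * X ^ mu) * ∑ q ∈ Icc 1 N, (1 : ℝ) / rad q := by
        rw [Finset.mul_sum]
        refine Finset.sum_congr rfl fun q _ => ?_
        ring
    _ ≤ D4 * X ^ (ε / 2) * (B * X ^ mu) * (D3 * X ^ (ε / 2)) := by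
        have h6 : ∑ q ∈ Icc 1 N, (1 : ℝ) / rad q ≤ D3 * X ^ (ε / 2) :=
          hsum.trans (by gcongr)
        have h7 : (0 : ℝ) ≤ ∑ q ∈ Icc 1 N, (1 : ℝ) / rad q :=
          Finset.sum_nonneg fun q _ => by positivity
        gcongr
    _ = D4 * B * D3 * X ^ (mu + ε) := by
        rw [show mu + ε = ε / 2 + mu + ε / 2 by ring, Real.rpow_add hX0, Real.rpow_add hX0]
        ring

/-- the upper bound for the dimension -/
theorem dim_le2 {mu B τ : ℝ} (h1 : 0 < mu) (hB : 0 < B) (hτ : 0 < τ) :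
    dimH (W2 B mu τ) ≤ ENNReal.ofReal (min 1 (mu / τ)) := by
  rw [ENNReal.ofReal_min, ENNReal.ofReal_one]
  apply le_min
  · rw [← Real.dimH_univ]
    exact dimH_mono (Set.subset_univ _)
  · exact Pool.Agent.R479.DA.dimH_approx (S2 B mu) (fun t ht => by
      obtain ⟨h1, h2, -⟩ := ht
      omega) h1.le hτ (s2_count B mu hB h1)

/-- **The Jarník-Besicovitch theorem for fractions with a small radical of two members.** -/
theorem dim_exact2 {mu B τ : ℝ} (h1 : 0 < mu) (h2 : mu ≤ 2) (hB : 0 < B) (hτ : 0 < τ) :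
    dimH (W2 B mu τ) = ENNReal.ofReal (min 1 (mu / τ)) :=
  le_antisymm (dim_le2 h1 hB hτ) (dim_ge2 h1 h2 hB hτ)

end Pool.Agent.J6H28.ABCX
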